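import Mathlib
import Pool.Agent.H917R2.Tr.Stubs
import Pool.Agent.H372R2.DP.V10

/-!
Countable central partition (helper316, task G_part).
-/

set_option autoImplicit false

open scoped ComplexOrder InnerProductSpace Topology
open Filter

noncomputable section

namespace H316R2.Tr

open H759R2.Kad H710R2.DP H917R2.Tr H710R2.DP.V372

variable {H : Type} [NormedAddCommGroup H] [InnerProductSpace ℂ H] [CompleteSpace H]

omit [CompleteSpace H] in
/-- Nonzero pairwise orthogonal projections in a separable space: countably many. -/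
lemma countable_of_orth [TopologicalSpace.SeparableSpace H] (T : Type) (w : T → (H →L[ℂ] H))
    (h0 : ∀ t, w t ≠ 0) (h : ∀ s t, s ≠ t → ∀ x y : H, ⟪w s x, w t y⟫_ℂ = 0) : Countable T := by
  have h1 : ∀ t, ∃ v : H, ‖w t v‖ = 1 := by
    intro t
    obtain ⟨v, hv⟩ : ∃ v, w t v ≠ 0 := by
      by_contra hc
      push Not at hc
      exact h0 t (ContinuousLinearMap.ext fun x => by simpa using hc x)
    refine ⟨((‖w t v‖⁻¹ : ℝ) : ℂ) • v, ?_⟩
    rw [map_smul, norm_smul, Complex.norm_real, Real.norm_eq_abs, abs_inv, abs_norm]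
    exact inv_mul_cancel₀ (norm_ne_zero_iff.2 hv)
  choose v hv using h1
  refine Pairwise.countable_of_isOpen_disjoint (s := fun t => Metric.ball (w t (v t)) (1 / 2))
    ?_ (fun t => Metric.isOpen_ball) (fun t => ⟨w t (v t), Metric.mem_ball_self (by norm_num)⟩)
  intro s t hst
  apply Metric.ball_disjoint_ball
  rw [dist_eq_norm]
  have h2 : ‖w s (v s) - w t (v t)‖ ^ 2 = 2 := by
    rw [norm_sub_sq (𝕜 := ℂ), h s t hst, hv, hv]
    norm_num
  have h3 : (1 : ℝ) ≤ ‖w s (v s) - w t (v t)‖ := by
    by_contra hc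
    push Not at hc
    have := norm_nonneg (w s (v s) - w t (v t))
    nlinarith
  linarith

theorem p_G_part : G_part := by
  intro H _ _ _ _ M P hP
  classical
  let Q : Set (Set (H →L[ℂ] H)) := {S | (∀ g ∈ S, IsCP M g ∧ g ≠ 0 ∧ ∃ ζ : ℕ → H, P g ζ) ∧
    ∀ g ∈ S, ∀ k ∈ S, g ≠ k → g * k = 0}
  obtain ⟨S, hS⟩ : ∃ S, Maximal (· ∈ Q) S := by
    apply zorn_subset Q
    intro c hc hch
    refine ⟨⋃₀ c, ⟨?_, ?_⟩, fun s hs => Set.subset_sUnion_of_mem hs⟩
    · rintro g ⟨s, hs, hg⟩
      exact (hc hs).1 g hg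
    · rintro g ⟨s, hs, hg⟩ k ⟨t, ht, hk⟩ hgk
      rcases hch.total hs ht with hst | hst
      · exact (hc ht).2 g (hst hg) k hk hgk
      · exact (hc hs).2 g hg k (hst hk) hgk
  have hSQ : S ∈ Q := hS.prop
  let w : S → (H →L[ℂ] H) := fun t => t.1
  have hcp : ∀ t : S, IsCP M (w t) := fun t => (hSQ.1 t.1 t.2).1
  have hst : ∀ t : S, star (w t) = w t := fun t => (hcp t).1.1
  have hid : ∀ t : S, w t * w t = w t := fun t => (hcp t).1.2
  have hpi : ∀ t : S, IsPI (w t) := by
    intro t
    unfold IsPI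
    rw [hst, hid, hid]
  have hor : ∀ s t : S, s ≠ t → w s * w t = 0 := by
    intro s t hne
    exact hSQ.2 s.1 s.2 t.1 t.2 (fun e => hne (Subtype.ext e))
  have hor' : ∀ s t : S, s ≠ t → star (w s) * w t = 0 ∧ w s * star (w t) = 0 := by
    intro s t hne
    rw [hst, hst]
    exact ⟨hor s t hne, hor s t hne⟩
  obtain ⟨W, hWM, hW1, hW2, hW3⟩ := dp_Vsum H M S w (fun t => ⟨(hcp t).2.1, hpi t⟩) hor'
  have hWw : ∀ t, W * w t = w t := by
    intro t
    have := hW1 t
    rwa [hst, hid] at this
  have hWsw : ∀ t, star W * w t = w t := by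
    intro t
    have := hW2 t
    rwa [hst, hid] at this
  have hWW : W * W = W := by
    have := hW3 (1 - W) 1 (fun t => by rw [sub_mul, one_mul, hWw, sub_self, zero_mul])
    rw [mul_one, sub_mul, one_mul, sub_eq_zero] at this
    exact this.symm
  have hWsW : star W * W = W := by
    have := hW3 (1 - star W) 1 (fun t => by rw [sub_mul, one_mul, hWsw, sub_self, zero_mul])
    rw [mul_one, sub_mul, one_mul, sub_eq_zero] at this
    exact this.symm
  have hWs : star W = W := by
    have : star (star W * W) = star W * W := by rw [star_mul, star_star]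
    rw [hWsW] at this
    exact this
  have hcom : ∀ y ∈ M, y * W = W * y * W := by
    intro y hy
    have := hW3 ((1 - W) * y) 1 (fun t => by
      have e : y * w t = w t * y := ((hcp t).2.2 y hy).symm
      rw [mul_one, mul_assoc, e, ← mul_assoc, sub_mul, one_mul, hWw, sub_self, zero_mul])
    rw [mul_one, sub_mul, one_mul, sub_mul, sub_eq_zero] at this
    exact this
  have hcen : ∀ y ∈ M, W * y = y * W := by
    intro y hy
    have h1 := hcom y hy
    have h2 := hcom (star y) (star_mem hy)
    have h3 := congrArg star h2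
    simp only [star_mul, star_star, hWs] at h3
    calc W * y = W * (y * W) := h3
      _ = W * y * W := (mul_assoc _ _ _).symm
      _ = y * W := h1.symm
  have hW : W = 1 := by
    by_contra hne
    have hz : IsCP M (1 - W) := by
      refine ⟨⟨?_, ?_⟩, ?_, ?_⟩
      · rw [star_sub, star_one, hWs]
      · rw [sub_mul, one_mul, mul_sub, mul_one, hWW, sub_self, sub_zero]
      · exact sub_mem (one_mem M) hWM
      · intro y hy
        rw [sub_mul, mul_sub, one_mul, mul_one, hcen y hy]
    obtain ⟨g, hg, hg0, hgz, ζ, hζ⟩ := hP (1 - W) hz (sub_ne_zero.2 (Ne.symm hne))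
    have hWg : W * g = 0 := by
      rw [sub_mul, one_mul, sub_eq_self] at hgz
      exact hgz
    have hgw : ∀ t, g * w t = 0 := by
      intro t
      rw [← hWw t, ← mul_assoc, ← hcen g hg.2.1, hWg, zero_mul]
    have hwg : ∀ t, w t * g = 0 := by
      intro t
      rw [(hcp t).2.2 g hg.2.1, hgw]
    have hins : insert g S ∈ Q := by
      refine ⟨?_, ?_⟩
      · intro k hk
        rcases Set.mem_insert_iff.1 hk with rfl | hk
        · exact ⟨hg, hg0, ζ, hζ⟩
        · exact hSQ.1 k hk
      · intro k hk l hl hkl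
        rcases Set.mem_insert_iff.1 hk with rfl | hk'
        · rcases Set.mem_insert_iff.1 hl with rfl | hl'
          · exact absurd rfl hkl
          · exact hgw ⟨l, hl'⟩
        · rcases Set.mem_insert_iff.1 hl with rfl | hl'
          · exact hwg ⟨k, hk'⟩
          · exact hSQ.2 k hk' l hl' hkl
    have hle := hS.le_of_ge hins (Set.subset_insert g S)
    have hgS : g ∈ S := hle (Set.mem_insert g S)
    have h1 : W * g = g := hWw ⟨g, hgS⟩
    rw [hWg] at h1
    exact hg0 h1.symm
  have hin : ∀ s t : S, s ≠ t → ∀ x y : H, ⟪w s x, w t y⟫_ℂ = 0 :=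
    fun s t hne x y => inner_zero w hor' hne x y
  have hcount : Countable S :=
    countable_of_orth S w (fun t => (hSQ.1 t.1 t.2).2.1) hin
  have hVW : WW w hpi hor' = 1 := by
    have h1 : ∀ t, WW w hpi hor' * w t = w t := by
      intro t
      ext x
      show WW w hpi hor' (w t x) = w t x
      rw [WW_apply, tsum_eq_single t]
      · have h1 : (w t * w t) x = w t x := by rw [hid t]
        exact h1
      · intro s hs
        have h1 : (w s * w t) x = 0 := by rw [hor s t hs]; rfl
        exact h1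
    have h2 := hW3 (1 - WW w hpi hor') 1 (fun t => by
      rw [sub_mul, one_mul, h1, sub_self, zero_mul])
    rw [hW, mul_one, mul_one, sub_eq_zero] at h2
    exact h2.symm
  choose ζ hζ using fun t : S => (hSQ.1 t.1 t.2).2.2
  refine ⟨S, hcount, w, ζ, fun t => ⟨hcp t, hζ t⟩, fun s t hne => hor s t hne, fun η => ?_⟩
  have h1 : HasSum (fun t => w t η) η := by
    have h2 := (summ w hpi hor' η).hasSum
    rw [← WW_apply w hpi hor' η, hVW] at h2
    exact h2
  have h2 := h1.mapL (innerSL ℂ η)
  have h3 := h2.mapL Complex.reCLM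
  have e1 : (fun t => Complex.reCLM ((innerSL ℂ η) (w t η))) = fun t => ‖w t η‖ ^ 2 := by
    funext t
    have h4 : ⟪η, w t η⟫_ℂ = ⟪w t η, w t η⟫_ℂ := by
      have h5 : (w t) η = (w t) ((w t) η) := by
        have : (w t * w t) η = w t η := by rw [hid t]
        exact this.symm
      conv_lhs => rw [h5]
      rw [← ContinuousLinearMap.adjoint_inner_left]
      have h6 : ContinuousLinearMap.adjoint (w t) = w t := hst t
      rw [h6]
    show (⟪η, w t η⟫_ℂ).re = _
    rw [h4, inner_self_eq_norm_sq_to_K]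
    norm_cast
  have e2 : Complex.reCLM ((innerSL ℂ η) η) = ‖η‖ ^ 2 := by
    show (⟪η, η⟫_ℂ).re = _
    rw [inner_self_eq_norm_sq_to_K]
    norm_cast
  rw [e1, e2] at h3
  exact h3

end H316R2.Tr
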